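import Pool.Agent.K3h16.MI.Stm

/-!
# The derivative of a conformal map
-/

set_option autoImplicit false

open MeasureTheory Set Filter Topology
open scoped ContDiff

namespace Pool.Agent.K3h90.MI

open Pool.Agent.K3h16.MI

theorem norm_fderiv {n : ℕ} {T : E n → E n} {ρ : E n → ℝ} {U : Set (E n)} (h : Conf T ρ U)
    {x : E n} (hx : x ∈ U) (v : E n) : ‖fderiv ℝ T x v‖ ^ 2 = ρ x ^ 2 * ‖v‖ ^ 2 := by
  have hU : U ∈ 𝓝 x := h.isOpen.mem_nhds hx
  have hT : HasFDerivAt T (fderiv ℝ T x) x :=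
    ((h.smoothT.contDiffAt hU).differentiableAt (by simp)).hasFDerivAt
  have hρ : ContinuousAt ρ x := (h.smoothρ.contDiffAt hU).continuousAt
  -- the line
  have hl : HasDerivAt (fun t : ℝ => x + t • v) v 0 := by
    have := (hasDerivAt_id (0 : ℝ)).smul_const v
    simpa using this.const_add x
  have hl0 : (fun t : ℝ => x + t • v) 0 = x := by simp
  have hg : HasDerivAt (fun t : ℝ => T (x + t • v)) (fderiv ℝ T x v) 0 := by
    have h1 : HasFDerivAt T (fderiv ℝ T x) ((fun t : ℝ => x + t • v) 0) := by rw [hl0]; exact hT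
    exact h1.comp_hasDerivAt (0 : ℝ) hl
  have h2 := hg.tendsto_slope_zero
  have h3 : Tendsto (fun t : ℝ => ‖t⁻¹ • (T (x + (0 + t) • v) - T (x + (0 : ℝ) • v))‖ ^ 2)
      (𝓝[≠] 0) (𝓝 (‖fderiv ℝ T x v‖ ^ 2)) := (h2.norm).pow 2
  have hc : Tendsto (fun t : ℝ => x + t • v) (𝓝[≠] 0) (𝓝 x) := by
    have := hl.continuousAt.tendsto
    rw [zero_smul, add_zero] at this
    exact this.mono_left nhdsWithin_le_nhds
  have h4 : Tendsto (fun t : ℝ => ρ (x + t • v) * ρ x * ‖v‖ ^ 2) (𝓝[≠] 0)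
      (𝓝 (ρ x * ρ x * ‖v‖ ^ 2)) :=
    ((hρ.tendsto.comp hc).mul_const _).mul_const _
  have h5 : ∀ᶠ t : ℝ in 𝓝[≠] 0, ‖t⁻¹ • (T (x + (0 + t) • v) - T (x + (0 : ℝ) • v))‖ ^ 2 =
      ρ (x + t • v) * ρ x * ‖v‖ ^ 2 := by
    filter_upwards [hc hU, self_mem_nhdsWithin] with t ht ht0
    have ht0' : t ≠ 0 := ht0
    rw [zero_add, zero_smul, add_zero, norm_smul, mul_pow, h.dist _ ht _ hx, add_sub_cancel_left,
      norm_smul, mul_pow, norm_inv, Real.norm_eq_abs, inv_pow, sq_abs]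
    field_simp
  have h6 := tendsto_nhds_unique (h3.congr' h5) h4
  rw [h6]
  ring

theorem t_CONF2 : S_CONF2 := by
  intro n T ρ U h x hx v w
  have h1 := norm_fderiv h hx v
  have h2 := norm_fderiv h hx w
  have h3 := norm_fderiv h hx (v + w)
  rw [map_add, norm_add_sq_real, norm_add_sq_real, h1, h2] at h3
  linear_combination h3 / 2

end Pool.Agent.K3h90.MI
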